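import Pool.Agent.Run7.h520.MZ.I

/-!
Piece OS of the project MZ (MP_5076ba_lc): omega-stability.
-/

set_option autoImplicit false

namespace Pool.Agent.Run7.h811.MZ

open FirstOrder FirstOrder.Language Run7.h520.MZ Set

theorem eqv {L : FirstOrder.Language.{0, 0}} {M N : Type} [L.Structure M] [L.Structure N]
    (h : N ⊨ L.completeTheory M) : M ≅[L] N := by
  rw [elementarilyEquivalent_iff]
  intro φ
  constructor
  · intro hφ
    exact Theory.realize_sentence_of_mem (M := N) (L.completeTheory M) hφ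
  · intro hφ
    by_contra hc
    have h2 : φ.not ∈ L.completeTheory M := hc
    have h3 := Theory.realize_sentence_of_mem (M := N) (L.completeTheory M) h2
    exact h3 hφ

/-- Types over a countable set are types of points of `M0`. -/
theorem exists_tuple (hb : S_BAS)
    (hcat : Cardinal.Categorical (Cardinal.aleph0 : Cardinal.{0}) T0)
    (M : Type) [LZ.Structure M] [M ⊨ T0] [Nonempty M] (A : Set M) (hA : A.Countable)
    (p : (LZ[[A]].completeTheory M).CompleteType (Fin 1)) :
    ∃ s : A ⊕ Fin 1 → M0,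
      (∀ φ : LZ[[A]].Formula (Fin 1), Formula.equivSentence φ ∈ p ↔
        Formula.Realize (BoundedFormula.constantsVarsEquiv φ : LZ.Formula (A ⊕ Fin 1)) s) ∧
      ∀ θ : LZ.Formula A, θ.Realize (s ∘ Sum.inl) ↔ θ.Realize (fun a : A => (a : M)) := by
  obtain ⟨hL, hM0c, hM0i, -⟩ := hb
  have e0 : M0 ≅[LZ] M := eqv (L := LZ) (M := M0) (N := M) (inferInstanceAs (M ⊨ T0))
  have hMi : Infinite M := e0.infinite_iff.1 hM0i
  obtain ⟨N, v, hv⟩ := Theory.exists_modelType_is_realized_in _ p
  have e1 : M ≅[LZ[[A]]] N := eqv N.is_model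
  have hNi : Infinite N := e1.infinite_iff.1 hMi
  have hAc : Countable A := hA.to_subtype
  obtain ⟨S, hvS, hcard⟩ := exists_elementarySubstructure_card_eq (LZ[[A]]) (Set.range v : Set N)
    Cardinal.aleph0 le_rfl
    (by
      rw [Cardinal.lift_id, Cardinal.lift_id]
      exact (Set.countable_range v).le_aleph0)
    (by
      rw [Cardinal.lift_id, Cardinal.lift_id, card_withConstants, Cardinal.lift_id,
        Cardinal.lift_id]
      exact Cardinal.add_le_aleph0.2 ⟨hL, Cardinal.mk_le_aleph0⟩)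
    (by
      rw [Cardinal.lift_id, Cardinal.lift_id]
      exact Cardinal.aleph0_le_mk N)
  rw [Cardinal.lift_id, Cardinal.lift_id] at hcard
  letI : LZ.Structure S := (LZ.lhomWithConstants A).reduct S
  have e2 : S ≅[LZ[[A]]] M := (S.elementarilyEquivalent).trans e1.symm
  have hS : S ⊨ T0 := by
    refine ⟨fun φ hφ => ?_⟩
    have h1 : M ⊨ φ := Theory.realize_sentence_of_mem (M := M) T0 hφ
    have h2 : M ⊨ (LZ.lhomWithConstants A).onSentence φ := (LHom.realize_onSentence M _ _).2 h1
    have h3 : S ⊨ (LZ.lhomWithConstants A).onSentence φ := (elementarilyEquivalent_iff.1 e2 _).2 h2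
    exact (LHom.realize_onSentence S _ _).1 h3
  have hM0 : M0 ⊨ T0 := ⟨fun φ hφ => hφ⟩
  have hSn : Nonempty S := by
    have : Infinite S := e2.symm.infinite_iff.1 hMi
    infer_instance
  have hM0n : Nonempty M0 := inferInstance
  obtain ⟨g⟩ := hcat (Theory.ModelType.of T0 S) (Theory.ModelType.of T0 M0) hcard
    (Cardinal.mk_eq_aleph0 M0)
  change S ≃[LZ] M0 at g
  refine ⟨fun i => g (Sum.elim (fun a : A => ((LZ.con a : LZ[[A]].Constants) : S))
    (fun i => ⟨v i, hvS ⟨i, rfl⟩⟩) i), fun φ => ?_, fun θ => ?_⟩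
  · rw [← hv, Theory.CompleteType.formula_mem_typeOf]
    have h1 : φ.Realize v ↔ φ.Realize (fun i => (⟨v i, hvS ⟨i, rfl⟩⟩ : S)) :=
      S.subtype.map_formula φ (fun i => (⟨v i, hvS ⟨i, rfl⟩⟩ : S))
    rw [h1]
    have h2 := BoundedFormula.realize_constantsVarsEquiv (M := S) (φ := φ)
      (v := fun i => (⟨v i, hvS ⟨i, rfl⟩⟩ : S)) (xs := default)
    refine h2.symm.trans ?_
    exact (StrongHomClass.realize_formula g
      (BoundedFormula.constantsVarsEquiv φ : LZ.Formula (A ⊕ Fin 1))).symm
  · have h1 : θ.Realize ((g : S → M0) ∘ fun a : A => ((LZ.con a : LZ[[A]].Constants) : S)) ↔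
        θ.Realize (fun a : A => ((LZ.con a : LZ[[A]].Constants) : S)) :=
      StrongHomClass.realize_formula g θ
    refine h1.trans ?_
    rw [← Formula.realize_equivSentence, elementarilyEquivalent_iff.1 e2 _,
      Formula.realize_equivSentence]
    simp only [coe_con]

theorem lc_sum {B : Type} (s : B ⊕ Fin 1 → M0) (c : (B ⊕ Fin 1) →₀ ZMod 2) :
    lc s c = lc (s ∘ Sum.inl) (c.comapDomain Sum.inl (Sum.inl_injective.injOn)) +
      c (Sum.inr 0) • val (s (Sum.inr 0)) := by
  classical
  induction c using Finsupp.induction_linear with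
  | zero => simp [lc]
  | add f g hf hg =>
    have h1 : lc s (f + g) = lc s f + lc s g := map_add _ _ _
    have h2 : lc (s ∘ Sum.inl) ((f + g).comapDomain Sum.inl (Sum.inl_injective.injOn)) =
        lc (s ∘ Sum.inl) (f.comapDomain Sum.inl (Sum.inl_injective.injOn)) +
        lc (s ∘ Sum.inl) (g.comapDomain Sum.inl (Sum.inl_injective.injOn)) := by
      rw [Finsupp.comapDomain_add_of_injective Sum.inl_injective]
      exact map_add _ _ _
    rw [h1, h2, hf, hg, Finsupp.add_apply, add_smul]
    abel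
  | single a b =>
    rcases a with a | a
    · have h1 : (Finsupp.single (Sum.inl a : B ⊕ Fin 1) b).comapDomain Sum.inl
          (Sum.inl_injective.injOn) = Finsupp.single a b := by
        ext x
        simp [Finsupp.comapDomain_apply, Finsupp.single_apply]
      rw [h1]
      simp [lc]
    · have h1 : (Finsupp.single (Sum.inr a : B ⊕ Fin 1) b).comapDomain Sum.inl
          (Sum.inl_injective.injOn) = 0 := by
        ext x
        simp [Finsupp.comapDomain_apply, Finsupp.single_apply]
      rw [h1]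
      have ha : a = 0 := Subsingleton.elim _ _
      subst ha
      simp [lc]

/-- Extending a similarity by one point. -/
theorem sim_of {B : Type} (s t : B ⊕ Fin 1 → M0) (h : Sim (s ∘ Sum.inl) (t ∘ Sum.inl))
    (hc : (∃ b, s (Sum.inl b) = s (Sum.inr 0) ∧ t (Sum.inl b) = t (Sum.inr 0)) ∨
      ((¬ ∃ b, s (Sum.inl b) = s (Sum.inr 0)) ∧ (¬ ∃ b, t (Sum.inl b) = t (Sum.inr 0)) ∧
        (isP (s (Sum.inr 0)) ↔ isP (t (Sum.inr 0))) ∧
        ((∃ c, lc (s ∘ Sum.inl) c = val (s (Sum.inr 0)) ∧
            lc (t ∘ Sum.inl) c = val (t (Sum.inr 0))) ∨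
          ((∀ c, lc (s ∘ Sum.inl) c ≠ val (s (Sum.inr 0))) ∧
            (∀ c, lc (t ∘ Sum.inl) c ≠ val (t (Sum.inr 0))))))) : Sim s t := by
  classical
  have hlin : ((∃ c, lc (s ∘ Sum.inl) c = val (s (Sum.inr 0)) ∧
            lc (t ∘ Sum.inl) c = val (t (Sum.inr 0))) ∨
          ((∀ c, lc (s ∘ Sum.inl) c ≠ val (s (Sum.inr 0))) ∧
            (∀ c, lc (t ∘ Sum.inl) c ≠ val (t (Sum.inr 0))))) →
      ∀ c : (B ⊕ Fin 1) →₀ ZMod 2, lc s c = 0 ↔ lc t c = 0 := by
    intro H c
    rw [lc_sum s c, lc_sum t c]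
    set c1 := c.comapDomain Sum.inl (Sum.inl_injective.injOn) with hc1
    have hz : ∀ z : ZMod 2, z = 0 ∨ z = 1 := by decide
    rcases hz (c (Sum.inr 0)) with h0 | h1
    · rw [h0, zero_smul, zero_smul, add_zero, add_zero]
      exact h.lin c1
    · rw [h1, one_smul, one_smul]
      rcases H with ⟨c0, hs, ht⟩ | ⟨hs, ht⟩
      · rw [← hs, ← ht]
        have e1 : lc (s ∘ Sum.inl) c1 + lc (s ∘ Sum.inl) c0 = lc (s ∘ Sum.inl) (c1 + c0) :=
          (map_add _ _ _).symm
        have e2 : lc (t ∘ Sum.inl) c1 + lc (t ∘ Sum.inl) c0 = lc (t ∘ Sum.inl) (c1 + c0) :=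
          (map_add _ _ _).symm
        rw [e1, e2]
        exact h.lin _
      · have h2 : ∀ x : V × ZMod 2, x + x = 0 := by
          intro x
          have : (2 : ZMod 2) = 0 := by decide
          rw [← two_smul (ZMod 2) x, this, zero_smul]
        have key : ∀ x y : V × ZMod 2, x + y = 0 → x = y := by
          intro x y hxy
          have : x + y + y = y := by rw [hxy, zero_add]
          rwa [add_assoc, h2, add_zero] at this
        exact ⟨fun H => absurd (key _ _ H) (hs c1), fun H => absurd (key _ _ H) (ht c1)⟩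
  rcases hc with ⟨b, hs, ht⟩ | ⟨hs, ht, hP, hl⟩
  · refine ⟨?_, ?_, hlin (Or.inl ⟨Finsupp.single b 1, ?_, ?_⟩)⟩
    · rintro (i | i)
      · exact h.P i
      · rw [Subsingleton.elim i 0, ← hs, ← ht]
        exact h.P b
    · rintro (i | i) (j | j)
      · exact h.eq i j
      · rw [Subsingleton.elim j 0, ← hs, ← ht]
        exact h.eq i b
      · rw [Subsingleton.elim i 0, ← hs, ← ht]
        exact h.eq b j
      · rw [Subsingleton.elim i 0, Subsingleton.elim j 0]
        exact ⟨fun _ => rfl, fun _ => rfl⟩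
    · rw [← hs]
      simp [lc]
    · rw [← ht]
      simp [lc]
  · refine ⟨?_, ?_, hlin hl⟩
    · rintro (i | i)
      · exact h.P i
      · rw [Subsingleton.elim i 0]
        exact hP
    · rintro (i | i) (j | j)
      · exact h.eq i j
      · rw [Subsingleton.elim j 0]
        exact ⟨fun e => absurd ⟨i, e⟩ hs, fun e => absurd ⟨i, e⟩ ht⟩
      · rw [Subsingleton.elim i 0]
        exact ⟨fun e => absurd ⟨j, e.symm⟩ hs, fun e => absurd ⟨j, e.symm⟩ ht⟩
      · rw [Subsingleton.elim i 0, Subsingleton.elim j 0]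
        exact ⟨fun _ => rfl, fun _ => rfl⟩

open Classical in
/-- The code of a tuple with one more point. -/
noncomputable def code {B : Type} (s : B ⊕ Fin 1 → M0) : B ⊕ (Prop × Option (B →₀ ZMod 2)) :=
  if h : ∃ b, s (Sum.inl b) = s (Sum.inr 0) then Sum.inl h.choose
  else Sum.inr (isP (s (Sum.inr 0)),
    if h : ∃ c, lc (s ∘ Sum.inl) c = val (s (Sum.inr 0)) then some h.choose else none)

theorem sim_code {B : Type} (s t : B ⊕ Fin 1 → M0) (h : Sim (s ∘ Sum.inl) (t ∘ Sum.inl))
    (hc : code s = code t) : Sim s t := by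
  classical
  refine sim_of s t h ?_
  unfold code at hc
  by_cases hs : ∃ b, s (Sum.inl b) = s (Sum.inr 0)
  · rw [dif_pos hs] at hc
    by_cases ht : ∃ b, t (Sum.inl b) = t (Sum.inr 0)
    · rw [dif_pos ht] at hc
      have e := Sum.inl_injective hc
      refine Or.inl ⟨hs.choose, hs.choose_spec, ?_⟩
      rw [e]
      exact ht.choose_spec
    · rw [dif_neg ht] at hc
      exact absurd hc (by simp)
  · rw [dif_neg hs] at hc
    by_cases ht : ∃ b, t (Sum.inl b) = t (Sum.inr 0)
    · rw [dif_pos ht] at hc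
      exact absurd hc (by simp)
    · rw [dif_neg ht] at hc
      have e := Sum.inr_injective hc
      have e1 := congrArg Prod.fst e
      have e2 := congrArg Prod.snd e
      dsimp only at e1 e2
      refine Or.inr ⟨hs, ht, iff_of_eq e1, ?_⟩
      by_cases hs' : ∃ c, lc (s ∘ Sum.inl) c = val (s (Sum.inr 0))
      · rw [dif_pos hs'] at e2
        by_cases ht' : ∃ c, lc (t ∘ Sum.inl) c = val (t (Sum.inr 0))
        · rw [dif_pos ht'] at e2
          have e3 := Option.some_injective _ e2
          refine Or.inl ⟨hs'.choose, hs'.choose_spec, ?_⟩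
          rw [e3]
          exact ht'.choose_spec
        · rw [dif_neg ht'] at e2
          exact absurd e2 (by simp)
      · rw [dif_neg hs'] at e2
        by_cases ht' : ∃ c, lc (t ∘ Sum.inl) c = val (t (Sum.inr 0))
        · rw [dif_pos ht'] at e2
          exact absurd e2 (by simp)
        · exact Or.inr ⟨fun c hc => hs' ⟨c, hc⟩, fun c hc => ht' ⟨c, hc⟩⟩

/-- Similar tuples (any index set) have the same type. -/
theorem stp_of_sim (hb : S_BAS) (hf : S_FORTH) (hinv : S_INV) {α : Type} (s t : α → M0)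
    (h : Sim s t) : STp LZ s t := by
  classical
  intro φ
  have h1 : Sim (s ∘ (Subtype.val : φ.freeVarFinset → α))
      (t ∘ (Subtype.val : φ.freeVarFinset → α)) :=
    (hb.2.2.2 α φ.freeVarFinset s t t).2.2.2 Subtype.val h
  have h2 := hinv hb hf φ.freeVarFinset _ _ h1
    (BoundedFormula.restrictFreeVar φ (id : φ.freeVarFinset → φ.freeVarFinset))
  have h3 : ∀ r : α → M0, Formula.Realize
      (BoundedFormula.restrictFreeVar φ (id : φ.freeVarFinset → φ.freeVarFinset))
      (r ∘ (Subtype.val : φ.freeVarFinset → α)) ↔ φ.Realize r := fun r =>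
    BoundedFormula.realize_restrictFreeVar r (fun _ => rfl)
  rw [h3, h3] at h2
  exact h2

/-- **Piece OS.** -/
theorem os : S_OS := by
  intro hb hf hinv hcov hcat M _ _ _ A hA
  have hAc : Countable A := hA.to_subtype
  choose s hs1 hs2 using exists_tuple hb hcat M A hA
  refine Function.Injective.countable (f := fun p => code (s p)) fun p q hpq => ?_
  have h1 : STp LZ (s p ∘ Sum.inl) (s q ∘ Sum.inl) := fun θ => (hs2 p θ).trans (hs2 q θ).symm
  have h2 : Sim (s p) (s q) := sim_code _ _ (hcov A _ _ h1) hpq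
  have h3 := stp_of_sim hb hf hinv _ _ h2
  refine SetLike.ext fun ψ => ?_
  obtain ⟨φ, rfl⟩ := Formula.equivSentence.surjective ψ
  rw [hs1 p φ, hs1 q φ]
  exact h3 _

end Pool.Agent.Run7.h811.MZ
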